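import Pool.Agent.Work.MP_ed30a9_ag.Proof

/-! The dimension of a linear system is at least its virtual dimension; adding a fixed surface. -/

set_option autoImplicit false

namespace Pool.Agent.Work.MP_ed30a9_ag

open MvPolynomial Module

/-- Exponent vectors of degree `e`. -/
noncomputable def Ex (e : ℕ) : Finset (Fin 4 →₀ ℕ) := Finset.finsuppAntidiag Finset.univ e

theorem mem_Ex {e : ℕ} {n : Fin 4 →₀ ℕ} : n ∈ Ex e ↔ n.degree = e := by
  simp [Ex, Finset.mem_finsuppAntidiag, Finsupp.degree_eq_sum]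

theorem card_Ex (e : ℕ) : (Ex e).card = (e + 3).choose 3 := by
  rw [Ex, Finset.card_finsuppAntidiag_nat_eq_choose, Finset.card_univ, Fintype.card_fin,
    show 4 + e - 1 = e + 3 by omega, Nat.choose_symm_add]

theorem finrank_hom (d : ℕ) :
    finrank ℂ (homogeneousSubmodule (Fin 4) ℂ d) = (d + 3).choose 3 := by
  have : homogeneousSubmodule (Fin 4) ℂ d = restrictSupport ℂ (Ex d : Set (Fin 4 →₀ ℕ)) := by
    rw [homogeneousSubmodule_eq_finsupp_supported]
    congr 1
    ext n
    exact mem_Ex.symm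
  rw [this, finrank_eq_card_basis (basisRestrictSupport ℂ (Ex d : Set (Fin 4 →₀ ℕ))), ← card_Ex]
  simp

/-- The index set of the conditions imposed by a point of multiplicity `m`. -/
noncomputable def Cond (m : ℕ) : Finset (Fin 4 →₀ ℕ) := if m = 0 then ∅ else Ex (m - 1)

theorem card_Cond (m : ℕ) : (Cond m).card = (m + 2).choose 3 := by
  rw [Cond]
  split_ifs with h
  · simp [h]
  · rw [card_Ex, show m - 1 + 3 = m + 2 by omega]

theorem vdim_le (d : ℕ) {s : ℕ} (m : Fin s → ℕ) (p : Fin s → P3) : vdim d m ≤ projDim d m p := by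
  choose χ ψ h1 h2 h3 using fun i => exists_chart (p i)
  have : Module.Finite ℂ (homogeneousSubmodule (Fin 4) ℂ d) :=
    Module.Finite.of_fg (homogeneousSubmodule_fg _ _ d)
  let Φ : homogeneousSubmodule (Fin 4) ℂ d →ₗ[ℂ] ((Σ i, Cond (m i)) → ℂ) := LinearMap.pi fun t =>
    (lcoeff ℂ (expo d fun i => t.2.1 i.succ)).comp ((χ t.1).toLinearMap.comp (Submodule.subtype _))
  have h4 := Φ.finrank_range_add_finrank_ker
  have h5 := Submodule.finrank_le (LinearMap.range Φ)
  rw [finrank_fintype_fun_eq_card, Fintype.card_sigma] at h5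
  simp only [Fintype.card_coe, card_Cond] at h5
  have h6 : (LinearMap.ker Φ).map (Submodule.subtype _) ≤ linSys d m p := by
    rintro _ ⟨⟨F, hF⟩, hk, rfl⟩
    refine ⟨hF, (Submodule.mem_iInf _).2 fun i => ?_⟩
    change F ∈ pointIdeal (p i) ^ m i
    rw [← h1 i F]
    refine mem_pow_of_coeff _ _ (h3 i) d _ _ (h2 i _ _ hF) fun a ha => ?_
    have hm : expo (m i - 1) a ∈ Cond (m i) := by
      rw [Cond, if_neg (by omega), mem_Ex]
      exact expo_degree _ _ (by omega)
    simpa [Φ, expo_succ] using congrFun (LinearMap.mem_ker.1 hk) ⟨i, _, hm⟩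
  have h7 := Submodule.finrank_mono h6
  rw [Submodule.finrank_map_subtype_eq] at h7
  rw [finrank_hom] at h4
  unfold vdim projDim
  have h8 : ∑ i, ((m i + 2).choose 3 : ℤ) = ((∑ i, (m i + 2).choose 3 : ℕ) : ℤ) := by push_cast; rfl
  omega

theorem projDim_add {d e s : ℕ} {m n : Fin s → ℕ} (p : Fin s → P3) (h : 0 ≤ projDim e n p) :
    projDim d m p ≤ projDim (e + d) (n + m) p := by
  obtain ⟨⟨F, hF⟩, h0⟩ := (finrank_pos_iff_exists_ne_zero (R := ℂ) (M := linSys e n p)).1
    (by unfold projDim at h; omega)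
  have h1 : F ≠ 0 := fun z => h0 (Subtype.ext z)
  have := LinearMap.finrank_le_finrank_of_injective (f := (LinearMap.mulLeft ℂ F).restrict
    (p := linSys d m p) (q := linSys (e + d) (n + m) p) fun G hG =>
      ⟨IsHomogeneous.mul hF.1 hG.1, (Submodule.mem_iInf _).2 fun i => by
        change F * G ∈ pointIdeal (p i) ^ (n i + m i)
        rw [pow_add]
        exact Ideal.mul_mem_mul ((Submodule.mem_iInf _).1 hF.2 i) ((Submodule.mem_iInf _).1 hG.2 i)⟩)
    fun a b e => Subtype.ext (mul_left_cancel₀ h1 (congrArg Subtype.val e))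
  unfold projDim
  omega

end Pool.Agent.Work.MP_ed30a9_ag
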